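import Pool.Agent.Helper51K9.KB.ExpDich

/-!
# Entire curves given by exponential sums in general hypersurfaces

Let `d ≥ 2 n + 2`. For all `r` and `N`, every nonconstant entire curve in a general hypersurface of
degree `d` in the projective space of dimension `n + 1`, whose homogeneous coordinates are, up to a
common factor, sums of `r` products of polynomials and exponentials of entire functions, is a rational
curve of degree greater than `N`.
-/

set_option autoImplicit false

namespace Pool.Agent.Results.MP_b509a1_ag.ExponentialSumCurves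

open MvPolynomial Pool.Agent.V1153.UG Pool.Agent.V1153.GH Pool.Agent.Helper51K9.KB

/-- The function `f` is a sum of `r` functions `p e^φ` with a polynomial `p` of any degree and an
entire function `φ` of any growth. -/
def ExpSum (r : ℕ) (f : ℂ → ℂ) : Prop :=
  ∃ (p : Fin r → Polynomial ℂ) (φ : Fin r → ℂ → ℂ), (∀ i, Differentiable ℂ (φ i)) ∧
    ∀ z, f z = ∑ i, (p i).eval z * Complex.exp (φ i z)

/-- The entire curve with the homogeneous coordinates `g` is given by the polynomials `P` (which may
have common zeros). -/
def IsGivenBy {n : ℕ} (g : ℂ → Fin (n + 2) → ℂ) (P : Fin (n + 2) → Polynomial ℂ) : Prop :=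
  P ≠ 0 ∧ ∀ z j k, g z j * (P k).eval z = g z k * (P j).eval z

theorem entire_zero {D : ℂ → ℂ} (hD : Differentiable ℂ D) {U : Set ℂ} (hU : IsOpen U)
    (hne : U.Nonempty) (h : ∀ z ∈ U, D z = 0) : ∀ z, D z = 0 := by
  obtain ⟨x, hx⟩ := hne
  have h1 : AnalyticOnNhd ℂ D Set.univ :=
    Complex.analyticOnNhd_univ_iff_differentiable.2 hD
  have h2 := h1.eqOn_zero_of_preconnected_of_eventuallyEq_zero isPreconnected_univ (Set.mem_univ x)
    (by
      filter_upwards [hU.mem_nhds hx] with z hz
      exact h z hz)
  exact fun z => h2 (Set.mem_univ z)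

/-- a polynomial times a continuous function is zero -/
theorem zero_of_mul {D : ℂ → ℂ} (hD : Continuous D) {p : Polynomial ℂ} (hp : p ≠ 0)
    (h : ∀ z, p.eval z * D z = 0) : ∀ z, D z = 0 := by
  have h1 : Dense {z : ℂ | p.eval z ≠ 0} := by
    have h2 : {z : ℂ | p.eval z = 0}.Finite := by
      refine (p.roots.toFinset.finite_toSet).subset fun z hz => ?_
      rw [Finset.mem_coe, Multiset.mem_toFinset, Polynomial.mem_roots hp]
      exact hz
    have h3 := h2.countable.dense_compl ℂ
    exact h3
  intro z
  have h4 : D = fun _ => 0 := by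
    refine Continuous.ext_on h1 hD continuous_const fun w hw => ?_
    exact (mul_eq_zero.1 (h w)).resolve_left hw
  exact congrFun h4 z

/-- Let `n ≥ 0`, `d ≥ 2 n + 2`, `r` and `N` be given. There is a polynomial `Φ` in the coefficients of
the forms of degree `d` in `n + 2` variables, which does not vanish at all forms of degree `d`, such
that for all forms `F` of degree `d` at which `Φ` does not vanish, every entire curve in the
hypersurface `F = 0`, whose homogeneous coordinates are up to a common factor sums of `r` products of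
polynomials of arbitrary degrees and exponentials of arbitrary entire functions, is constant or a
rational curve of degree greater than `N`. -/
theorem result (n d : ℕ) (hd : 2 * n + 2 ≤ d) (r N : ℕ) :
    ∃ Φ : MvPolynomial (Fin (n + 2) →₀ ℕ) ℂ,
      (∃ F₀ : MvPolynomial (Fin (n + 2)) ℂ, F₀.IsHomogeneous d ∧
        eval (fun m => coeff m F₀) Φ ≠ 0) ∧
      ∀ F : MvPolynomial (Fin (n + 2)) ℂ, F.IsHomogeneous d → eval (fun m => coeff m F) Φ ≠ 0 →
        ∀ g : ℂ → Fin (n + 2) → ℂ, Differentiable ℂ g → (∀ z, g z ≠ 0) →
          (∀ z, eval (g z) F = 0) →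
          (∃ u : ℂ → ℂ, (∃ z, u z ≠ 0) ∧ ∀ j, ExpSum r fun z => u z * g z j) →
          (∀ z, ∃ c : ℂ, g z = c • g 0) ∨
            ((∃ P, IsGivenBy g P) ∧ ∀ P, IsGivenBy g P → ∃ j, N < (P j).natDegree) := by
  classical
  obtain ⟨N₀, hN₀⟩ := dichotomy (n + 1) d r
  obtain ⟨Φ, h1, h2⟩ := gen_hyp (n := n + 1) (d := d) (by omega) (max N₀ N)
  refine ⟨Φ, h1, fun F hF hFΦ g hg h0 hm hexp => ?_⟩
  by_cases hnc : ∃ z w j l, g z j * g w l ≠ g z l * g w j
  swap
  · exact Or.inl fun z => prop_of h0 hnc z 0
  right
  have hgj : ∀ j, Differentiable ℂ fun z => g z j := fun j => differentiable_pi.1 hg j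
  obtain ⟨u, ⟨z₁, hz₁⟩, hu⟩ := hexp
  choose p φ hφ hpφ using hu
  have hhd : ∀ j, Differentiable ℂ fun z => u z * g z j := by
    intro j
    have h3 : (fun z => u z * g z j)
        = fun z => ∑ i, (p j i).eval z * Complex.exp (φ j i z) := funext (hpφ j)
    rw [h3]
    apply Differentiable.fun_sum
    intro i _
    exact (p j i).differentiable.mul (hφ j i).cexp
  obtain ⟨k₁, hk₁⟩ : ∃ k, g z₁ k ≠ 0 := by
    by_contra hcon
    push Not at hcon
    exact h0 z₁ (funext hcon)
  refine ⟨?_, ?_⟩
  · -- the polynomials
    rcases hN₀ F hF (fun z j => u z * g z j) p φ hφ (fun z j => hpφ j z)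
      (fun z => by rw [eval_homog hF, hm, mul_zero])
      ⟨z₁, fun h => mul_ne_zero hz₁ hk₁ (congrFun h k₁)⟩ with ⟨P, hP⟩ | ⟨R, hR, hRp⟩
    · exact absurd ⟨fun j => (hP.deg j).trans (le_max_left _ _), hP.mem, hP.off, hP.nc⟩
        (h2 F hF hFΦ P)
    · refine ⟨R, hR, fun z j k => ?_⟩
      have h3 : ∀ z, g z j * (R k).eval z - g z k * (R j).eval z = 0 := by
        refine entire_zero (((hgj j).mul (R k).differentiable).sub
          ((hgj k).mul (R j).differentiable)) (U := {z | u z * g z k₁ ≠ 0})
          (isOpen_ne_fun (hhd k₁).continuous continuous_const)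
          ⟨z₁, mul_ne_zero hz₁ hk₁⟩ fun z hz => ?_
        have h4 := hRp z j k
        have h5 : u z ≠ 0 := left_ne_zero_of_mul hz
        apply mul_left_cancel₀ h5
        linear_combination h4
      exact sub_eq_zero.1 (h3 z)
  · -- the degree
    rintro P ⟨hP0, hP⟩
    by_contra hcon
    push Not at hcon
    refine h2 F hF hFΦ P ⟨fun j => (hcon j).trans (le_max_right _ _), fun G hGI _ => ?_,
      ⟨1, 0, one_ne_zero, by rw [map_one]; simp⟩, ?_⟩
    · have h3 : Ideal.span {F} ≤ RingHom.ker (aeval P : MvPolynomial (Fin (n + 2)) ℂ →ₐ[ℂ]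
          Polynomial ℂ) := by
        rw [Ideal.span_le, Set.singleton_subset_iff]
        change aeval P F = 0
        apply Polynomial.funext
        intro z
        obtain ⟨k, hk⟩ : ∃ k, g z k ≠ 0 := by
          by_contra hcon
          push Not at hcon
          exact h0 z (funext hcon)
        have h4 : (fun j => (P j).eval z) = fun j => ((P k).eval z / g z k) * g z j := by
          funext j
          rw [div_mul_eq_mul_div, eq_div_iff hk]
          linear_combination hP z k j
        rw [Pool.Agent.V1153.UG.eval_aeval, h4, eval_homog hF, hm, mul_zero, Polynomial.eval_zero]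
      exact h3 hGI
    · by_contra hc
      push Not at hc
      obtain ⟨l, hl⟩ : ∃ l, P l ≠ 0 := by
        by_contra hcon
        push Not at hcon
        exact hP0 (funext hcon)
      obtain ⟨t₀, ht₀⟩ : ∃ t, (P l).eval t ≠ 0 := by
        by_contra hcon
        push Not at hcon
        exact hl (Polynomial.funext fun t => by rw [hcon t, Polynomial.eval_zero])
      have h5 : ∀ j k z, g z j * (P k).eval t₀ - g z k * (P j).eval t₀ = 0 := by
        intro j k
        refine zero_of_mul ((((hgj j).continuous).mul continuous_const).sub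
          (((hgj k).continuous).mul continuous_const)) hl fun z => ?_
        have h6 := hP z j l
        have h7 := hP z k l
        have h8 := hc z t₀ j k
        linear_combination ((P k).eval t₀) * h6 - ((P j).eval t₀) * h7 + g z l * h8
      obtain ⟨z, w, j, k, hzw⟩ := hnc
      apply hzw
      apply mul_left_cancel₀ ht₀
      apply mul_left_cancel₀ ht₀
      have h6 := h5 j l z
      have h7 := h5 k l z
      have h8 := h5 j l w
      have h9 := h5 k l w
      have e1 : g z j * (P l).eval t₀ = g z l * (P j).eval t₀ := by linear_combination h6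
      have e2 : g z k * (P l).eval t₀ = g z l * (P k).eval t₀ := by linear_combination h7
      have e3 : g w j * (P l).eval t₀ = g w l * (P j).eval t₀ := by linear_combination h8
      have e4 : g w k * (P l).eval t₀ = g w l * (P k).eval t₀ := by linear_combination h9
      calc (P l).eval t₀ * ((P l).eval t₀ * (g z j * g w k))
          = (g z j * (P l).eval t₀) * (g w k * (P l).eval t₀) := by ring
        _ = (g z k * (P l).eval t₀) * (g w j * (P l).eval t₀) := by rw [e1, e2, e3, e4]; ring
        _ = (P l).eval t₀ * ((P l).eval t₀ * (g z k * g w j)) := by ring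

end Pool.Agent.Results.MP_b509a1_ag.ExponentialSumCurves
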