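import Pool.Agent.Y189.DC.Fin
import Pool.Agent.TH182.VG.Rigid

/-!
# Entire curves given by linear functional equations in very general hypersurfaces

Let `n ≥ 1` and `d ≥ 2 n + 2`. Every entire curve in a very general hypersurface of degree `d` in the
projective space of dimension `n + 1`, whose homogeneous coordinates satisfy linear functional
equations with respect to an entire function which is not a translation (for example, `q`-difference
equations or Mahler equations), is constant; a nonconstant entire curve given by linear difference
equations is periodic.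
-/

set_option autoImplicit false

namespace Pool.Agent.Results.MP_b509a1_ag.FunctionalEquationCurves

open Filter MvPolynomial
open scoped LinearAlgebra.Projectivization
open Pool.Agent.TH143.EL (HolMap InV Rep TorusMapsIn rep_iff rep_rep)
open Pool.Agent.Y189.DC (NCE Base FunEq)

/-- The entire curve `f` is given by linear functional equations with respect to `σ`: Here `σ` is a
nonconstant entire function, no iterate `σ^k`, `k > 0`, of which is the identity (`NCE σ`: `σ` is
entire and not constant). The curve has homogeneous coordinates `h j` which are meromorphic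
functions on the plane, each of them satisfying a nontrivial linear functional equation
`∑ a_k(z) h(σ^k(z)) = 0` (`FunEq σ U (h j)`), whose coefficients are polynomials in finitely many
meromorphic functions `u` in `U`. The field generated by `U` is closed under the composition with
`σ` and has transcendence degree at most one over the constants (`Base σ U`). -/
def FunctionalCurve {N : ℕ} (σ : ℂ → ℂ) (f : ℂ → ℙ ℂ (Fin (N + 1) → ℂ)) : Prop :=
  NCE σ ∧ (∀ k, 0 < k → ∃ z, σ^[k] z ≠ z) ∧ ∃ U : Set (ℂ → ℂ), Base σ U ∧
    ∃ h : Fin (N + 1) → ℂ → ℂ, (∀ j, Meromorphic (h j)) ∧ (∀ j, FunEq σ U (h j)) ∧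
      ∀ᶠ z in codiscrete ℂ, Rep (f z) fun j => h j z

/-- Let `n ≥ 1` and `d ≥ 2 n + 2`, and let the coefficients of the form `F` of degree `d` in `n + 2`
variables be algebraically independent over the rational numbers. For every nonconstant entire curve
`f` in the hypersurface `F = 0` there is a complex number `b` such that all functions `σ`, with respect
to which `f` is given by linear functional equations, are translations `z ↦ z + r b`, `r` rational, and
`k r b` is a period of `f` for some `k > 0`. So `f` is constant if it is given by linear functional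
equations with respect to a function which is not a translation, or with respect to two translations
which are linearly independent over the rational numbers. -/
theorem result (n d : ℕ) (hn : 1 ≤ n) (hd : 2 * n + 2 ≤ d) (F : MvPolynomial (Fin (n + 1 + 1)) ℂ)
    (hF : F.IsHomogeneous d)
    (hind : AlgebraicIndependent ℚ
      (fun m : {m : Fin (n + 1 + 1) →₀ ℕ // m.degree = d} => coeff m.1 F))
    (f : ℂ → ℙ ℂ (Fin (n + 1 + 1) → ℂ)) (hf : HolMap f) (hfF : ∀ z, eval (f z).rep F = 0)
    (hnc : ∃ z w, f z ≠ f w) :
    ∃ b : ℂ, ∀ σ, FunctionalCurve σ f →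
      ∃ r : ℚ, (∀ z, σ z = z + r * b) ∧ ∃ k : ℕ, 0 < k ∧ ∀ z, f (z + k * (r * b)) = f z := by
  obtain ⟨p, rfl⟩ : ∃ p, n = p + 1 := ⟨n - 1, by omega⟩
  have hT : TorusMapsIn (Ideal.span {F}) ⊤ := by
    intro ω₁ ω₂ hω g hg h1 h2 hgF hgnc
    exfalso
    obtain ⟨z, w, hzw⟩ := hgnc
    refine hzw (Pool.Agent.TH182.VG.torus_const hF (by omega) hind hω
      (Pool.Agent.TH182.VG.holo_of_holMap hg) h1 h2 (fun z => ?_) z w)
    exact hgF z F (Ideal.subset_span rfl) ⟨d, hF⟩
  refine (Pool.Agent.Y189.DC.final (Ideal.span {F}) ⊤).1 hT f hf (fun z G hG _ => ?_)
    ⟨0, fun h => ?_⟩ hnc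
  · have h1 : Ideal.span {F} ≤ RingHom.ker (eval (f z).rep) := by
      rw [Ideal.span_le, Set.singleton_subset_iff]
      exact hfF z
    exact h1 hG
  · have h1 := h 1 trivial ⟨0, isHomogeneous_one _ _⟩
    rw [map_one] at h1
    exact one_ne_zero h1

end Pool.Agent.Results.MP_b509a1_ag.FunctionalEquationCurves
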