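import Pool.Agent.R871.SG.BubH
import Pool.Agent.Helper51K9.KB.Freiman

/-!
# Isolated terms of the Taylor series of entire curves in general hypersurfaces

Let `d ≥ 2 n + 2`. For all `N` and all entire curves in a general hypersurface of degree `d` in the
projective space of dimension `n + 1`, the terms of the Taylor series which dominate all other terms
on some circle come in groups of more than `N`.
-/

set_option autoImplicit false

namespace Pool.Agent.Results.MP_b509a1_ag.IsolatedTaylorTerms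

open MvPolynomial Filter Topology
open Pool.Agent.R871.SG (Isolated centralIndex coef RatFree HolIn pv terms_apart
  isolated_of_ratio)

/-- `f` consists of homogeneous coordinates, without common zeros, of a holomorphic map from the plane
to the hypersurface `F = 0`. -/
def EntireCurve {n : ℕ} (F : MvPolynomial (Fin (n + 2)) ℂ) (f : ℂ → Fin (n + 2) → ℂ) : Prop :=
  Differentiable ℂ f ∧ (∀ z, f z ≠ 0) ∧ ∀ z, eval (f z) F = 0

theorem isClosed_cone {n : ℕ} (F : MvPolynomial (Fin (n + 2)) ℂ) :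
    IsClosed {x : Fin (n + 2) → ℂ | eval x F = 0} :=
  isClosed_eq (MvPolynomial.continuous_eval F) continuous_const

theorem ratFree {n N : ℕ} {F : MvPolynomial (Fin (n + 2)) ℂ}
    (hG : ∀ P, ¬ Pool.Agent.V1153.UG.GmBdd (Ideal.span {F}) 1 N P) :
    RatFree (n := n + 1) {x : Fin (n + 2) → ℂ | eval x F = 0} N := by
  rintro P hdeg ⟨-, hP⟩ ⟨z, w, hzw⟩
  have h1 := Pool.Agent.Helper51K9.KB.no_gm hG hdeg fun t _ => (hP t).2
  have hz := (hP z).1
  obtain ⟨l, hl⟩ : ∃ l, (P l).eval z ≠ 0 := by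
    by_contra hcon
    push Not at hcon
    exact hz (funext hcon)
  refine hzw ((P l).eval w / (P l).eval z) (funext fun j => ?_)
  rw [Pi.smul_apply, smul_eq_mul, div_mul_eq_mul_div, eq_div_iff hl]
  have := h1 w z j l
  exact this

/-- Let `n ≥ 0`, `d ≥ 2 n + 2` and `N` be given. There is a polynomial `Φ` in the coefficients of the
forms of degree `d` in `n + 2` variables, which does not vanish at all forms of degree `d`, such that
for all forms `F` of degree `d` at which `Φ` does not vanish: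

(1) There is `δ > 0` such that for every entire curve in the hypersurface `F = 0` the indices of
different `δ`-isolated terms of the Taylor series differ by more than `N`.

(2) There is `R > 1` such that for every such curve whose homogeneous coordinates are not all
polynomials the central index of the Taylor series increases by more than `N` between the radii `r` and
`R r`, for arbitrarily large `r`.

(3) If `N ≥ 1`, there is no entire curve in the hypersurface with the homogeneous coordinates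
`∑ a_m z^m`, all `a_m` nonzero vectors, such that `‖a_m‖ ‖a_{m+2}‖ / ‖a_{m+1}‖²` tends to zero. -/
theorem result (n d : ℕ) (hd : 2 * n + 2 ≤ d) (N : ℕ) :
    ∃ Φ : MvPolynomial (Fin (n + 2) →₀ ℕ) ℂ,
      (∃ F₀ : MvPolynomial (Fin (n + 2)) ℂ, F₀.IsHomogeneous d ∧
        eval (fun m => coeff m F₀) Φ ≠ 0) ∧
      ∀ F : MvPolynomial (Fin (n + 2)) ℂ, F.IsHomogeneous d → eval (fun m => coeff m F) Φ ≠ 0 →
        (∃ δ : ℝ, 0 < δ ∧ ∀ f, EntireCurve F f → ∀ (w : ℂ) (j k : ℕ) (r ρ : ℝ), 0 < r → r < ρ →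
          Isolated (coef f w) δ j r → Isolated (coef f w) δ k ρ → k = j ∨ j + N < k) ∧
        (∃ R : ℝ, 1 < R ∧ ∀ f, EntireCurve F f →
          (¬ ∃ P : Fin (n + 2) → Polynomial ℂ, ∀ z j, f z j = (P j).eval z) →
          ∀ (w : ℂ) (r₀ : ℝ), ∃ r > r₀,
            centralIndex (coef f w) r + N < centralIndex (coef f w) (R * r)) ∧
        (1 ≤ N → ∀ f, EntireCurve F f → ∀ w : ℂ, (∀ m, coef f w m ≠ 0) →
          ¬ Tendsto (fun m => ‖coef f w m‖ * ‖coef f w (m + 2)‖ / ‖coef f w (m + 1)‖ ^ 2) atTop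
            (𝓝 0)) := by
  obtain ⟨Φ, h1, h2⟩ := Pool.Agent.V1153.GH.gen_hyp (n := n + 1) (d := d) (by omega) N
  refine ⟨Φ, h1, fun F hF hFΦ => ?_⟩
  have hs : ∀ (a : ℂ), ∀ x ∈ {x : Fin (n + 2) → ℂ | eval x F = 0},
      a • x ∈ {x : Fin (n + 2) → ℂ | eval x F = 0} := by
    intro a x hx
    have h3 := Pool.Agent.V1153.UG.eval_homog hF a x
    have h4 : eval x F = 0 := hx
    rw [h4, mul_zero] at h3
    exact h3
  have hH : ∀ f, EntireCurve F f → HolIn {x : Fin (n + 2) → ℂ | eval x F = 0} f :=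
    fun f hf => ⟨hf.1, fun z => ⟨hf.2.1 z, hf.2.2 z⟩⟩
  obtain ⟨⟨δ, hδ, h3⟩, R, hR, h4⟩ := terms_apart (isClosed_cone F) hs (ratFree (h2 F hF hFΦ))
  refine ⟨⟨δ, hδ, fun f hf => h3 f (hH f hf)⟩, ⟨R, hR, fun f hf hP => h4 f (hH f hf) ?_⟩,
    fun hN f hf w ha ht => ?_⟩
  · rintro ⟨P, rfl⟩
    exact hP ⟨P, fun z j => rfl⟩
  · obtain ⟨j, r, ρ, hr, hrρ, hj, hk⟩ := isolated_of_ratio ha ht hδ
    rcases h3 f (hH f hf) w j (j + 1) r ρ hr hrρ hj hk with h5 | h5 <;> omega

end Pool.Agent.Results.MP_b509a1_ag.IsolatedTaylorTerms
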