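import Pool.Agent.Helper51K9.KB.Freiman

/-!
# Taylor exponents of entire curves in general hypersurfaces

Let `d ≥ 2 n + 2`. For all `N` and all entire curves in a general hypersurface of degree `d` in the
projective space of dimension `n + 1` the exponents of the Taylor series fall into classes by their
Freiman homomorphisms of order `d` to `{0, ..., N}`, and the part of the curve with exponents in any
class is proportional to the whole curve. In particular the curve is constant if a class has small
diameter, for example if all digits of all exponents are small in some base.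
-/

set_option autoImplicit false

namespace Pool.Agent.Results.MP_b509a1_ag.TaylorExponents

open MvPolynomial H458.EC Pool.Agent.Helper51K9.KB

/-- The exponents of the entire curve with the homogeneous coordinates `f`: the `k` such that the
`k`-th Taylor coefficient at `0`, a vector, is not zero. -/
def Exponents {n : ℕ} (f : ℂ → Fin (n + 2) → ℂ) : Set ℕ :=
  {k | iteratedDeriv k f 0 ≠ 0}

/-- The function `χ` is a Freiman homomorphism of order `d` on `E`: for all finite families `s` and `t`
(with repetitions) of the same number of at most `d` elements of `E`, if `s` and `t` have the same sum,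
so do their images. -/
def IsFreiman (d : ℕ) (E : Set ℕ) (χ : ℕ → ℕ) : Prop :=
  ∀ s t : Multiset ℕ, s.card = t.card → s.card ≤ d → (∀ k ∈ s, k ∈ E) → (∀ k ∈ t, k ∈ E) →
    s.sum = t.sum → (s.map χ).sum = (t.map χ).sum

/-- The class of `k₀` in `E`: the `k ∈ E` such that `χ(k) = χ(k₀)` for all Freiman homomorphisms `χ` of
order `d` from `E` to `{0, ..., N}`. -/
def Class (d N : ℕ) (E : Set ℕ) (k₀ : ℕ) : Set ℕ :=
  {k | k ∈ E ∧ ∀ χ : ℕ → ℕ, IsFreiman d E χ → (∀ l ∈ E, χ l ≤ N) → χ k = χ k₀}

theorem exponents_eq {n : ℕ} (f : ℂ → Fin (n + 2) → ℂ) : Exponents f = {k | tc f k ≠ 0} := by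
  ext k
  unfold Exponents tc
  rw [Set.mem_ofPred_eq, Set.mem_ofPred_eq, Ne, Ne, smul_eq_zero]
  have h : ((k.factorial : ℂ))⁻¹ ≠ 0 := inv_ne_zero (Nat.cast_ne_zero.2 k.factorial_ne_zero)
  tauto

theorem class_eq (d N : ℕ) (E : Set ℕ) (k₀ : ℕ) : Class d N E k₀ = Cls d N E k₀ := rfl

/-- Let `n ≥ 0`, `d ≥ 2 n + 2` and `N` be given. There is a polynomial `Φ` in the coefficients of the
forms of degree `d` in `n + 2` variables, which does not vanish at all forms of degree `d`, such that
for all forms `F` of degree `d` at which `Φ` does not vanish and all entire curves `f` in the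
hypersurface `F = 0`:

(1) for each class of exponents of `f` the part of the Taylor series of `f` with exponents in this class
is at every point `z` a multiple of `f(z)`;

(2) `f` is constant if the elements of one class of exponents differ by at most `N`;

(3) for example, `f` is constant if in some base `m > d N` all digits of all exponents are at most
`N`. -/
theorem result (n d : ℕ) (hd : 2 * n + 2 ≤ d) (N : ℕ) :
    ∃ Φ : MvPolynomial (Fin (n + 2) →₀ ℕ) ℂ,
      (∃ F₀ : MvPolynomial (Fin (n + 2)) ℂ, F₀.IsHomogeneous d ∧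
        eval (fun m => coeff m F₀) Φ ≠ 0) ∧
      ∀ F : MvPolynomial (Fin (n + 2)) ℂ, F.IsHomogeneous d → eval (fun m => coeff m F) Φ ≠ 0 →
        ∀ f : ℂ → Fin (n + 2) → ℂ, Differentiable ℂ f → (∀ z, f z ≠ 0) →
          (∀ z, eval (f z) F = 0) →
          (∀ k₀ ∈ Exponents f, ∀ z, ∃ c : ℂ,
            HasSum (fun k : Class d N (Exponents f) k₀ =>
              (z ^ (k : ℕ) / ((k : ℕ).factorial : ℂ)) • iteratedDeriv k f 0) (c • f z)) ∧
          (∀ k₀ ∈ Exponents f, (∀ k ∈ Class d N (Exponents f) k₀,
            ∀ l ∈ Class d N (Exponents f) k₀, k ≤ l + N) → ∀ z, ∃ c : ℂ, f z = c • f 0) ∧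
          (∀ m, 2 ≤ m → d * N < m → (∀ k ∈ Exponents f, ∀ i, k / m ^ i % m ≤ N) →
            ∀ z, ∃ c : ℂ, f z = c • f 0) := by
  classical
  obtain ⟨Φ, h1, h2⟩ := Pool.Agent.V1153.GH.gen_hyp (n := n + 1) (d := d) (by omega) N
  refine ⟨Φ, h1, fun F hF hFΦ f hf h0 hm => ?_⟩
  have hG := h2 F hF hFΦ
  have hE := exponents_eq f
  have hconst : ∀ k₀ ∈ Exponents f, (∀ k ∈ Class d N (Exponents f) k₀,
      ∀ l ∈ Class d N (Exponents f) k₀, k ≤ l + N) → ∀ z, ∃ c : ℂ, f z = c • f 0 := by
    intro k₀ hk₀ hdiam z
    rw [hE] at hk₀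
    refine const_of_cls hF hG hf h0 hm hk₀ (fun k hk l hl => hdiam k ?_ l ?_) z 0
    · rw [hE]; exact hk
    · rw [hE]; exact hl
  refine ⟨fun k₀ hk₀ z => ?_, hconst, fun m hm2 hdm hdig => ?_⟩
  · rw [hE] at hk₀
    obtain ⟨c, hc⟩ := (prp_cls hF hG hf h0 hm hk₀).smul hf h0 z
    refine ⟨c, ?_⟩
    have h3 := (summable_tw hf zero_le_one
      (bd_ind f (Cls d N {k | tc f k ≠ 0} k₀)) z).hasSum
    have h4 : (∑' k, (ind (Cls d N {k | tc f k ≠ 0} k₀) k * z ^ k) • tc f k) = c • f z := hc
    rw [h4] at h3
    have h5 := (hasSum_subtype_iff_indicator (f := fun k : ℕ =>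
      (z ^ k / (k.factorial : ℂ)) • iteratedDeriv k f 0)
      (s := Class d N (Exponents f) k₀) (a := c • f z)).2 (by
        convert h3 using 1
        funext k
        have h6 : Class d N (Exponents f) k₀ = Cls d N {k | tc f k ≠ 0} k₀ := by rw [hE]; rfl
        by_cases hk : k ∈ Cls d N {k | tc f k ≠ 0} k₀
        · rw [h6, Set.indicator_of_mem hk, ind_mem hk, one_mul]
          unfold tc
          rw [smul_smul, div_eq_mul_inv]
        · rw [h6, Set.indicator_of_notMem hk, ind_not hk, zero_mul, zero_smul])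
    exact h5
  · obtain ⟨k₀, hk₀⟩ : ∃ k₀, k₀ ∈ Exponents f := by
      by_contra hcon
      push Not at hcon
      apply h0 0
      have h3 := hasSum_tc hf 0
      have h4 : ∀ k, tc f k = 0 := by
        intro k
        by_contra h5
        exact hcon k (by rw [hE]; exact h5)
      simp only [h4, smul_zero] at h3
      exact h3.unique hasSum_zero
    refine hconst k₀ hk₀ ?_
    have h3 : ∀ k ∈ Class d N (Exponents f) k₀, k = k₀ := by
      rintro k ⟨hkE, hk⟩
      exact eq_of_digits hm2 fun i => hk (fun k => k / m ^ i % m)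
        (frei_digit (by omega) hdm hdig i) fun l hl => hdig l hl i
    intro k hk l hl
    rw [h3 k hk, h3 l hl]
    omega

end Pool.Agent.Results.MP_b509a1_ag.TaylorExponents
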